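import Mathlib
import Pool.Agent.H30.SepG

set_option autoImplicit false

namespace Pool.Agent.Results.MP_e6ac2b_gt.Yes

open Set Filter Topology TopologicalSpace PiNat

abbrev P : Type := ℕ → ZMod 2
def b (i : ℕ) (x : P) : Prop := {n | x (Nat.pair i n) = 1} ∈ hyperfilter ℕ
noncomputable def lay (x : P) : ℕ := sInf {i | b i x}
abbrev Nd : Type := ℕ × Σ n : ℕ, Fin n → ZMod 2
def nd (j n : ℕ) (x : P) : Nd := (j, ⟨n, fun k => x k⟩)
def X : Type := P ⊕ Nd

def W (a d n : ℕ) : Set X := fun z => match z with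
  | .inl x => x = 0 ∨ (a ≤ lay x ∧ ∀ k < n, x k = 0)
  | .inr q => d ≤ q.1 ∧ n ≤ q.2.1 ∧ ∀ k : Fin q.2.1, k.1 < n → q.2.2 k = 0

lemma Wm {a d n a' d' n' : ℕ} (h1 : a ≤ a') (h2 : d ≤ d') (h3 : n ≤ n') : W a' d' n' ⊆ W a d n
  | .inl _, h => h.imp id fun h => ⟨h1.trans h.1, fun k e => h.2 k (e.trans_le h3)⟩
  | .inr _, h => ⟨h2.trans h.1, h3.trans h.2.1, fun k e => h.2.2 k (e.trans_le h3)⟩

def Op (V : Set X) : Prop := (∀ x ≠ 0, Sum.inl x ∈ V → ∀ᶠ n in atTop, ∀ j, j = lay x ∨ j = lay x + 1 →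
  Sum.inr (nd j n x) ∈ V) ∧ (Sum.inl 0 ∈ V → ∃ n, W n n n ⊆ V)

instance : TopologicalSpace X where
  IsOpen := Op
  isOpen_univ := ⟨fun _ _ _ => .of_forall fun _ _ _ => trivial, fun _ => ⟨0, subset_univ _⟩⟩
  isOpen_inter s t hs ht := ⟨fun x e h => ((hs.1 x e h.1).and (ht.1 x e h.2)).mono fun _ a j q => ⟨a.1 j q, a.2 j q⟩,
    fun h => (hs.2 h.1).elim fun m a => (ht.2 h.2).elim fun n c => ⟨max m n, subset_inter
      ((Wm (le_max_left ..) (le_max_left ..) (le_max_left ..)).trans a)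
      ((Wm (le_max_right ..) (le_max_right ..) (le_max_right ..)).trans c)⟩⟩
  isOpen_sUnion s h := ⟨fun x e ⟨t, a, c⟩ => ((h t a).1 x e c).mono fun _ u j q => ⟨t, a, u j q⟩,
    fun ⟨t, a, c⟩ => ((h t a).2 c).imp fun _ u => u.trans (subset_sUnion_of_mem a)⟩

lemma op {V : Set X} : IsOpen V ↔ Op V := Iff.rfl

lemma oW (n : ℕ) : IsOpen (W n n n) := op.2 ⟨fun x e h => (eventually_ge_atTop n).mono fun m a j q =>
  ⟨by have := (h.resolve_left e).1; show n ≤ j; omega, a, fun k c => (h.resolve_left e).2 k c⟩, fun _ => ⟨n, le_rfl⟩⟩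

def sg (q : Nd) : Set X := {z | z = .inr q}
lemma o1 (q : Nd) : IsOpen (sg q) := op.2 ⟨fun _ _ h => (by cases h), fun h => (by cases h)⟩
lemma c1 (q : Nd) : IsClosed (sg q) := ⟨op.2 ⟨fun x _ _ => (eventually_gt_atTop q.2.1).mono fun m a j _ h => (by
  cases h; exact lt_irrefl _ a), fun _ => ⟨q.1 + 1, fun z a h => (by cases h; exact Nat.not_succ_le_self _ a.1)⟩⟩⟩

instance : RegularSpace X := .of_exists_mem_nhds_isClosed_subset fun z s hs => by
  obtain ⟨V, v1, v2, v3⟩ := mem_nhds_iff.1 hs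
  rcases z with x | q
  swap
  · exact ⟨_, (o1 q).mem_nhds rfl, c1 q, fun _ h => h ▸ v1 v3⟩
  by_cases e : x = 0
  · subst e
    obtain ⟨n, hn⟩ := (op.1 v2).2 v3
    refine ⟨W n (n + 1) n, mem_of_superset ((oW (n + 1)).mem_nhds (.inl rfl)) (Wm n.le_succ le_rfl n.le_succ),
      ⟨op.2 ⟨fun y _ h => (eventually_ge_atTop n).mono fun m a j q c => h (.inr ⟨?_, fun k u =>
        c.2.2 ⟨k, u.trans_le a⟩ u⟩), fun h => (h (.inl rfl)).elim⟩⟩, (Wm le_rfl n.le_succ le_rfl).trans (hn.trans v1)⟩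
    have : n + 1 ≤ j := c.1
    omega
  · obtain ⟨m, hm⟩ := eventually_atTop.1 ((op.1 v2).1 x e v3)
    refine ⟨{z | z = .inl x ∨ ∃ n ≥ m, ∃ j, (j = lay x ∨ j = lay x + 1) ∧ z = .inr (nd j n x)},
      IsOpen.mem_nhds (op.2 ⟨fun y _ h => ?_, fun h => ?_⟩) (.inl rfl), ⟨op.2 ⟨fun y _ h => ?_, fun _ =>
        ⟨lay x + 2, ?_⟩⟩⟩, ?_⟩
    · obtain rfl : y = x := by rcases h with h | ⟨_, _, _, _, h⟩ <;> cases h; rfl
      exact (eventually_ge_atTop m).mono fun n a j q => .inr ⟨n, a, j, q, rfl⟩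
    · rcases h with h | ⟨_, _, _, _, h⟩ <;> cases h; exact (e rfl).elim
    · obtain ⟨k, hk⟩ := Function.ne_iff.1 (show y ≠ x from fun q => h (.inl (q ▸ rfl)))
      refine (eventually_gt_atTop k).mono fun n a j _ => ?_
      rintro (h | ⟨n', _, j', _, h⟩)
      · cases h
      · have h := congrArg Prod.snd (Sum.inr.inj h)
        obtain rfl : n = n' := congrArg Sigma.fst h
        exact hk (congrFun (eq_of_heq (Sigma.mk.inj h).2) ⟨k, a⟩)
    · rintro z a (rfl | ⟨n, _, j, q, rfl⟩)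
      · have := (a.resolve_left e).1; omega
      · have : lay x + 2 ≤ j := a.1
        omega
    · rintro z (rfl | ⟨n, a, j, q, rfl⟩)
      exacts [v1 v3, v1 (hm n a j q)]

instance : SeparableSpace X := ⟨range Sum.inr, countable_range _, dense_iff_inter_open.2 fun V o ⟨z, hz⟩ => by
  rcases z with x | q
  · by_cases e : x = 0
    · obtain ⟨n, hn⟩ := (op.1 o).2 (e ▸ hz)
      exact ⟨_, hn (show Sum.inr (nd n n 0) ∈ W n n n from ⟨le_rfl, le_rfl, fun _ _ => rfl⟩), _, rfl⟩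
    · obtain ⟨n, hn⟩ := ((op.1 o).1 x e hz).exists
      exact ⟨_, hn _ (.inl rfl), _, rfl⟩
  · exact ⟨_, hz, _, rfl⟩⟩

lemma cov (i n : ℕ) (p : P) {N : ℕ → Set P} (c : ∀ m, IsClosed (N m))
    (h : ∀ x ∈ cylinder p n, x ≠ 0 → lay x = i → ∃ m, x ∈ N m) :
    ∃ m n' p', cylinder p' n' ⊆ cylinder p n ∩ N m := by
  classical
  have cc : IsClosed (cylinder p n) := by
    simp only [cylinder, ofPred_forall]
    exact isClosed_iInter fun k => isClosed_iInter fun _ => isClosed_eq (continuous_apply k) continuous_const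
  let γ : (Fin n → ZMod 2) × Finset ℕ → P := fun t k => if h : k < n then t.1 ⟨k, h⟩ else if k.unpair.1 ∈ t.2 then 1 else 0
  obtain ⟨⟨t, m⟩, x, hx⟩ := nonempty_interior_of_iUnion_of_closed
    (f := fun t : ((Fin n → ZMod 2) × Finset ℕ) × ℕ => (· + γ t.1) ⁻¹' (cylinder p n ∩ N t.2))
    (fun t => ((cc.inter (c _))).preimage (continuous_add_const _)) (eq_univ_of_forall fun x => by
      let t : (Fin n → ZMod 2) × Finset ℕ := (fun k => p k - x k, (Finset.range (i + 1)).filter fun j => b j x ↔ j < i)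
      have a : x + γ t ∈ cylinder p n := fun k hk => by simp [γ, t, hk]
      have e : ∀ j ≤ i, b j (x + γ t) ↔ ¬j < i := fun j hj => by
        have l : ∀ᶠ k in hyperfilter ℕ, (x + γ t) (Nat.pair j k) = x (Nat.pair j k) + if b j x ↔ j < i then 1 else 0 :=
          ((eventually_ge_atTop n).filter_mono Nat.hyperfilter_le_atTop).mono fun k hk => by
            simp [γ, t, (hk.trans (Nat.right_le_pair j k)).not_gt, hj]
        by_cases q : b j x ↔ j < i
        · rw [← q]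
          refine Iff.trans ?_ Ultrafilter.compl_mem_iff_notMem
          refine eventually_congr (l.mono fun k hk => ?_)
          rw [hk, if_pos q]
          exact (by decide : ∀ r : ZMod 2, r + 1 = 1 ↔ ¬r = 1) _
        · refine Iff.trans (eventually_congr (l.mono fun k hk => ?_) : _ ↔ b j x) (by tauto)
          rw [hk, if_neg q, add_zero]
      have e1 := (e i le_rfl).2 (lt_irrefl i)
      obtain ⟨m, hm⟩ := h _ a (fun z => by rw [z] at e1; simp [b] at e1) (le_antisymm (Nat.sInf_le e1)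
        (le_csInf ⟨i, e1⟩ fun j hj => not_lt.1 fun q => (e j q.le).1 hj q))
      exact mem_iUnion.2 ⟨(t, m), a, hm⟩)
  obtain ⟨_, ⟨y, l, rfl⟩, -, s⟩ := (isTopologicalBasis_cylinders _).exists_subset_of_mem_open hx isOpen_interior
  refine ⟨m, l, y + γ t, fun z hz => ?_⟩
  simpa using interior_subset (s (show z - γ t ∈ cylinder y l from fun k hk => by simp [hz k hk]))

lemma ncr : ¬CompletelyRegularSpace X := fun H => by
  obtain ⟨g, g1, g2, g3⟩ := H.completely_regular (.inl 0) {z | ∃ x ≠ 0, lay x = 0 ∧ z = .inl x}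
    ⟨op.2 ⟨fun _ _ _ => .of_forall fun _ _ _ ⟨_, _, _, h⟩ => (by cases h), fun _ => ⟨1, by
      rintro _ a ⟨x, e, l, rfl⟩
      have := (a.resolve_left e).1; omega⟩⟩⟩ fun ⟨x, e, _, h⟩ => by cases h; exact e rfl
  have c : Continuous fun z => (g z : ℝ) := by fun_prop
  have a : ∀ i n p, ∃ n' p', cylinder p' n' ⊆ cylinder p n ∧ ∀ x ∈ cylinder p' n', x ≠ 0 → lay x = i →
      1 / 2 + 1 / (i + 2 : ℝ) ≤ g (.inl x) := fun i => by
    induction i with
    | zero => exact fun n p => ⟨n, p, le_rfl, fun x _ e l => by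
      rw [show g (.inl x) = 1 from g3 ⟨x, e, l, rfl⟩]; norm_num⟩
    | succ i ih =>
      intro n p
      obtain ⟨n', p', s, h⟩ := ih n p
      obtain ⟨m, l, y, u⟩ := cov i n' p' (N := fun m => {x | ∀ k ≥ m,
        1 / 2 + 1 / ((i + 1 : ℕ) + 2 : ℝ) ≤ g (.inr (nd (i + 1) k x))}) (fun m => by
          simp only [ofPred_forall]
          exact isClosed_iInter fun k => isClosed_iInter fun _ => (isClosed_discrete
            {t : Fin k → ZMod 2 | 1 / 2 + 1 / ((i + 1 : ℕ) + 2 : ℝ) ≤ g (.inr (i + 1, ⟨k, t⟩))}).preimage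
              (f := fun (x : P) (r : Fin k) => x r) (by fun_prop))
        fun x hx e l => by
          have := (op.1 (isOpen_lt (continuous_const (y := 1 / 2 + 1 / ((i + 1 : ℕ) + 2 : ℝ))) c)).1 x e
            (lt_of_lt_of_le (by push_cast; gcongr; linarith) (h x hx e l))
          exact (eventually_atTop.1 this).imp fun m hm k hk => (hm k hk _ (.inr (by rw [l]))).le
      refine ⟨l, y, fun x hx => s (u hx).1, fun x hx e q => not_lt.1 fun z => ?_⟩
      obtain ⟨k, k1, k2⟩ := (((op.1 (isOpen_lt c continuous_const)).1 x e z).and (eventually_ge_atTop m)).exists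
      exact ((u hx).2 k k2).not_gt (k1 _ (.inl q.symm))
  obtain ⟨n, hn⟩ := (op.1 (isOpen_lt c (continuous_const (y := 1 / 2)))).2 (show (g (.inl 0) : ℝ) < 1 / 2 by simp [g2])
  obtain ⟨l, y, s, h⟩ := a n n 0
  obtain ⟨m, l', y', u⟩ := cov n l y (N := fun _ => ∅) (fun _ => isClosed_empty) fun x hx e q => by
    have h1 := h x hx e q
    have h2 : (g (.inl x) : ℝ) < 1 / 2 := hn (show Sum.inl x ∈ W n n n from .inr ⟨q.ge, s hx⟩)
    have : (0 : ℝ) < 1 / (n + 2) := by positivity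
    linarith
  exact (u (self_mem_cylinder y' l')).2

open Classical in
noncomputable def cd : X → ℕ ⊕ Nd → ZMod 2
  | .inl x, .inl k => x k
  | .inr q, .inl k => if h : k < q.2.1 then q.2.2 ⟨k, h⟩ else 0
  | z, .inr q => if z = .inr q then 1 else 0

theorem result : ∃ (G : Type) (_ : AddCommGroup G) (_ : TopologicalSpace G),
    (∀ a : G, Continuous fun x => a + x) ∧ (∀ a : G, Continuous fun x => x + a) ∧ (Continuous fun x : G => -x) ∧
    T1Space G ∧ RegularSpace G ∧ SeparableSpace G ∧ ¬CompletelyRegularSpace G := by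
  obtain ⟨e, he⟩ := exists_surjective_nat (ℕ ⊕ Nd)
  have : Nontrivial X := ⟨.inl 0, .inr (nd 0 0 0), fun h => by cases h⟩
  have r : ∀ z q, cd z (.inr q) = 1 ↔ z = .inr q := fun z q => by rcases z with x | x <;> simp [cd]
  obtain ⟨G, _, _, h1, h2, h3, h4, h5⟩ := H30.SepG.grp (c := fun z n => cd z (e n)) (fun z w h => by
    have a : ∀ t, cd z t = cd w t := fun t => (he t).elim fun n q => q ▸ congrFun h n
    rcases w with y | q
    · rcases z with x | q
      · exact congrArg _ (funext fun k => a (.inl k))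
      · exact ((r _ q).1 ((a _).symm.trans ((r _ q).2 rfl))).symm
    · exact (r _ q).1 ((a _).trans ((r _ q).2 rfl))) (fun n p => by
    show IsOpen {z | cd z (e n) = cd p (e n)}
    generalize cd p (e n) = v
    rcases e n with k | q
    · refine op.2 ⟨fun x _ h => (eventually_gt_atTop k).mono fun m a j _ => (dif_pos a).trans h,
        fun h => ⟨k + 1, fun z a => Eq.trans ?_ h⟩⟩
      rcases z with x | q
      · exact a.elim (fun u => u ▸ rfl) fun u => u.2 k k.lt_succ_self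
      · exact (dif_pos a.2.1).trans (a.2.2 ⟨k, a.2.1⟩ k.lt_succ_self)
    · rcases (by decide : ∀ r : ZMod 2, r = 0 ∨ r = 1) v with rfl | rfl
      · exact (Set.ext fun z => ((by decide : ∀ r : ZMod 2, r = 0 ↔ ¬r = 1) _).trans (r z q).not :
          {z | cd z (.inr q) = 0} = (sg q)ᶜ) ▸ (c1 q).isOpen_compl
      · exact (Set.ext fun z => r z q : {z | cd z (.inr q) = 1} = sg q) ▸ o1 q) ncr
  exact ⟨G, inferInstance, inferInstance, h1, fun a => by simpa only [add_comm _ a] using h1 a,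
    by simpa only [h2] using continuous_id', inferInstance, inferInstance, h4, h5⟩

end Pool.Agent.Results.MP_e6ac2b_gt.Yes
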